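import Pool.Agent.H.MP_44257e_co.UG.G9

/-!
# Links of a family
-/

set_option autoImplicit false

namespace MP44257e

variable {m s k : ℕ} {A : Finset (Finset (Fin (m + 1)))}

theorem isFam_lk (hA : IsFam (T (s + 1)) (k + 1) A) (x : Fin (m + 1)) :
    IsFam (T s) k (lk A x) := by
  refine ⟨fun Y hY => ?_, fun Y hY Z hZ hYZ => ?_⟩
  · have h1 := hA.1 _ (mem_lk.1 hY)
    rw [card_up] at h1
    omega
  · have h1 := mem_T.1 (hA.2 _ (mem_lk.1 hY) _ (mem_lk.1 hZ) fun h => hYZ (up_inj h))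
    rw [up_inter, card_up] at h1
    rw [mem_T]
    omega

theorem sum_lk (hA : ∀ X ∈ A, X.card = k + 1) :
    ∑ x, (lk A x).card = A.card * (k + 1) := by
  have h1 : ∀ x, (lk A x).card = (A.filter fun X => x ∈ X).card := by
    intro x
    refine Finset.card_bij (fun Y _ => up x Y) ?_ ?_ ?_
    · intro Y hY
      exact Finset.mem_filter.2 ⟨mem_lk.1 hY, self_mem_up⟩
    · intro Y _ Z _ h
      exact up_inj h
    · intro X hX
      obtain ⟨h2, h3⟩ := Finset.mem_filter.1 hX
      obtain ⟨Y, rfl⟩ := exists_up h3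
      exact ⟨Y, mem_lk.2 h2, rfl⟩
  simp only [h1, Finset.card_filter]
  rw [Finset.sum_comm]
  have h2 : ∀ X ∈ A, ∑ x, (if x ∈ X then 1 else 0) = k + 1 := by
    intro X hX
    rw [← Finset.card_filter, ← hA X hX]
    congr 1
    ext x
    simp
  rw [Finset.sum_congr rfl h2, Finset.sum_const, smul_eq_mul]

end MP44257e
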