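import Pool.Agent.H.MP_44257e_co.UG.G9

/-!
# Designs and links

`desG_of_links`: for `S.card = s + 1` choose `x ∈ S`, `S = up x Y` (`exists_up`), `Y.card = s`, and
put `c S = x.succAbove (c_x Y)`. Then use `mem_up_succAbove`, `up_subset`, `insert_up`; a block
`X ⊇ S` is `up x Z` with `Z ∈ lk A x`; a point `w ≠ x` is `x.succAbove w'`
(`Fin.exists_succAbove_eq`).

`links_of_desG`: `c' Y` is the `y` with `x.succAbove y = c (up x Y)` (exists if `Y.card = s`, as
`c (up x Y) ∉ up x Y`, so it is not `x`), anything else otherwise.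
-/

set_option autoImplicit false

namespace MP44257e

variable {m s : ℕ} {A : Finset (Finset (Fin (m + 1)))}

theorem desG_of_links
    (h : ∀ x, ∃ c : Finset (Fin m) → Fin m, IsDesG s (lk A x) c) :
    ∃ c : Finset (Fin (m + 1)) → Fin (m + 1), IsDesG (s + 1) A c := by
  choose cx hcx using h
  have hex : ∀ S : Finset (Fin (m + 1)), ∃ d : Fin (m + 1), S.card = s + 1 →
      ∃ x Y, up x Y = S ∧ d = x.succAbove (cx x Y) := by
    intro S
    by_cases hS : S.Nonempty
    · obtain ⟨x, hx⟩ := hS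
      obtain ⟨Y, hY⟩ := exists_up hx
      exact ⟨x.succAbove (cx x Y), fun _ => ⟨x, Y, hY, rfl⟩⟩
    · exact ⟨0, fun h => absurd (Finset.card_pos.mp (by omega)) hS⟩
  choose c hc using hex
  have hYc : ∀ {S : Finset (Fin (m + 1))} {x : Fin (m + 1)} {Y : Finset (Fin m)},
      S.card = s + 1 → up x Y = S → Y.card = s := by
    intro S x Y hS hY
    rw [← hY, card_up] at hS
    omega
  refine ⟨c, fun S hS => ?_, fun X hX S hSX hS => ?_, fun S w hS hw hwc => ?_⟩
  · obtain ⟨x, Y, hY, hd⟩ := hc S hS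
    rw [hd]
    intro h1
    rw [← hY, mem_up_succAbove] at h1
    exact (hcx x).1 Y (hYc hS hY) h1
  · obtain ⟨x, Y, hY, hd⟩ := hc S hS
    have hxX : x ∈ X := by
      apply hSX
      rw [← hY]
      exact self_mem_up
    obtain ⟨Z, hZ⟩ := exists_up hxX
    have hYZ : Y ⊆ Z := by
      rw [← up_subset (x := x), hY, hZ]
      exact hSX
    have hZA : Z ∈ lk A x := mem_lk.2 (by rw [hZ]; exact hX)
    rw [hd, ← hZ, mem_up_succAbove]
    exact (hcx x).2.1 Z hZA Y hYZ (hYc hS hY)
  · obtain ⟨x, Y, hY, hd⟩ := hc S hS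
    have hwx : w ≠ x := by
      intro h1
      apply hw
      rw [h1, ← hY]
      exact self_mem_up
    obtain ⟨w', hw'⟩ := Fin.exists_succAbove_eq hwx
    have h1 : w' ∉ Y := by
      intro h1
      apply hw
      rw [← hw', ← hY, mem_up_succAbove]
      exact h1
    have h2 : w' ≠ cx x Y := by
      intro h2
      apply hwc
      rw [hd, ← hw', h2]
    obtain ⟨Z, hZ, hZs⟩ := (hcx x).2.2 Y w' (hYc hS hY) h1 h2
    refine ⟨up x Z, mem_lk.1 hZ, ?_⟩
    rw [← hw', ← hY, insert_up]
    exact up_subset.2 hZs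

theorem links_of_desG (hm : 0 < m) {c : Finset (Fin (m + 1)) → Fin (m + 1)}
    (hc : IsDesG (s + 1) A c) (x : Fin (m + 1)) :
    ∃ c' : Finset (Fin m) → Fin m, IsDesG s (lk A x) c' := by
  have hcard : ∀ Y : Finset (Fin m), Y.card = s → (up x Y).card = s + 1 := by
    intro Y hY
    rw [card_up, hY]
  have hex : ∀ Y : Finset (Fin m), ∃ d : Fin m, Y.card = s → x.succAbove d = c (up x Y) := by
    intro Y
    by_cases hY : Y.card = s
    · have h1 : c (up x Y) ∉ up x Y := hc.1 _ (hcard Y hY)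
      have h2 : c (up x Y) ≠ x := by
        intro h2
        apply h1
        rw [h2]
        exact self_mem_up
      obtain ⟨d, hd⟩ := Fin.exists_succAbove_eq h2
      exact ⟨d, fun _ => hd⟩
    · exact ⟨⟨0, hm⟩, fun h => absurd h hY⟩
  choose c' hc' using hex
  refine ⟨c', fun Y hY h1 => ?_, fun X hX S hSX hS => ?_, fun S w hS hw hwc => ?_⟩
  · apply hc.1 _ (hcard Y hY)
    rw [← hc' Y hY, mem_up_succAbove]
    exact h1
  · rw [← mem_up_succAbove (x := x), hc' S hS]
    exact hc.2.1 (up x X) (mem_lk.1 hX) (up x S) (up_subset.2 hSX) (hcard S hS)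
  · have h1 : x.succAbove w ∉ up x S := by
      rw [mem_up_succAbove]
      exact hw
    have h2 : x.succAbove w ≠ c (up x S) := by
      rw [← hc' S hS]
      intro h2
      exact hwc (Fin.succAbove_right_injective h2)
    obtain ⟨X, hX, hXs⟩ := hc.2.2 (up x S) (x.succAbove w) (hcard S hS) h1 h2
    have hxX : x ∈ X := hXs (Finset.mem_insert_of_mem self_mem_up)
    obtain ⟨Z, hZ⟩ := exists_up hxX
    refine ⟨Z, mem_lk.2 (by rw [hZ]; exact hX), ?_⟩
    rw [← up_subset (x := x), ← insert_up, hZ]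
    exact hXs

end MP44257e
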