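import Pool.Agent.H.MP_44257e_co.UG.G0

/-!
# The bound for `T (s + 1)`

`T (s + 1) = 0 :: (T s).map (· + 1)`.
-/

set_option autoImplicit false

namespace MP44257e

theorem T_succ (s : ℕ) : T (s + 1) = 0 :: (T s).map (· + 1) := by
  unfold T
  rw [List.range_succ_eq_map, List.map_append, List.map_cons, List.map_nil, List.cons_append]

theorem bound_T_succ (s k m : ℕ) :
    bound (T (s + 1)) (k + 1) (m + 1) = (((m : ℚ) + 1) / ((k : ℚ) + 1)) * bound (T s) k m := by
  have h1 : ((T s).map (· + 1)).map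
      (fun t : ℕ => (((m + 1 : ℕ) : ℚ) - (t : ℚ)) / (((k + 1 : ℕ) : ℚ) - (t : ℚ))) =
      (T s).map fun t : ℕ => ((m : ℚ) - (t : ℚ)) / ((k : ℚ) - (t : ℚ)) := by
    rw [List.map_map]
    refine List.map_congr_left fun t _ => ?_
    show (((m + 1 : ℕ) : ℚ) - ((t + 1 : ℕ) : ℚ)) / (((k + 1 : ℕ) : ℚ) - ((t + 1 : ℕ) : ℚ)) =
      ((m : ℚ) - (t : ℚ)) / ((k : ℚ) - (t : ℚ))
    push_cast
    rw [add_sub_add_right_eq_sub, add_sub_add_right_eq_sub]
  unfold bound
  rw [T_succ, List.map_cons, h1, List.prod_cons]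
  push_cast
  rw [sub_zero, sub_zero]

/-- The bound as a quotient of products is positive. -/
theorem bound_T_pos {s k m : ℕ} (hk : s + 1 < k) (hm : s + 1 < m) : 0 < bound (T s) k m := by
  unfold bound
  refine List.prod_pos ?_
  intro a ha
  obtain ⟨t, ht, rfl⟩ := List.mem_map.1 ha
  have h1 : t < k ∧ t < m := by
    rcases mem_T.1 ht with h | h
    · omega
    · omega
  have h2 : (t : ℚ) < k := by exact_mod_cast h1.1
  have h3 : (t : ℚ) < m := by exact_mod_cast h1.2
  exact div_pos (sub_pos.2 h3) (sub_pos.2 h2)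

end MP44257e
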