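import Pool.Agent.H.MP_44257e_co.UG.G3

/-!
# Closures in the matroid

Compare with `UB/N0.lean` (`mem_closure_ind`), `UB/N2.lean`, `UB/N3.lean` (the case `s = 2`, done).
All from `mem_closure_indG` and `indG_small`, `indG_s1`, `indG_s2`.
-/

set_option autoImplicit false

namespace MP44257e

variable {v s k : ℕ} {A : Finset (Finset (Fin v))} {c : Finset (Fin v) → Fin v}
  {M : Matroid (Fin v)}

theorem mem_closure_indG (hM : M.E = Set.univ)
    (hI : ∀ I : Finset (Fin v), M.Indep (I : Set (Fin v)) ↔ IndG s A c I) {I : Finset (Fin v)}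
    (h : IndG s A c I) {e : Fin v} :
    e ∈ M.closure (I : Set (Fin v)) ↔ (e ∉ I → ¬ IndG s A c (insert e I)) := by
  rw [Matroid.Indep.mem_closure_iff' ((hI I).2 h), ← Finset.coe_insert, hI, hM, Finset.mem_coe]
  constructor
  · rintro ⟨_, h1⟩ h2 h3
    exact h2 (h1 h3)
  · intro h1
    refine ⟨Set.mem_univ e, fun h2 => ?_⟩
    by_contra h3
    exact h1 h3 h2

theorem closure_small (hM : M.E = Set.univ)
    (hI : ∀ I : Finset (Fin v), M.Indep (I : Set (Fin v)) ↔ IndG s A c I) (hc : IsDesG s A c)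
    {I : Finset (Fin v)} (h : I.card < s) : M.closure (I : Set (Fin v)) = (I : Set (Fin v)) := by
  ext e
  rw [mem_closure_indG hM hI (indG_small hc h.le), Finset.mem_coe]
  constructor
  · intro h1
    by_contra h2
    exact h1 h2 (indG_small hc ((Finset.card_insert_le e I).trans h))
  · intro h1 h2
    exact absurd h1 h2

theorem closure_s (hk : s + 2 ≤ k) (hkv : k < v) (hA : IsFam (T s) k A)
    (hM : M.E = Set.univ) (hI : ∀ I : Finset (Fin v), M.Indep (I : Set (Fin v)) ↔ IndG s A c I)
    (hc : IsDesG s A c) {I : Finset (Fin v)} (h : I.card = s) :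
    M.closure (I : Set (Fin v)) = ((insert (c I) I : Finset (Fin v)) : Set (Fin v)) := by
  ext e
  rw [mem_closure_indG hM hI (indG_small hc h.le), Finset.mem_coe, Finset.mem_insert]
  constructor
  · intro h1
    by_contra h2
    rw [not_or] at h2
    exact h1 h2.2 (indG_s1 hk hkv hA hc h h2.2 h2.1)
  · intro h1 h2 h3
    rcases h1 with h1 | h1
    · refine h3.2.1 I (Finset.subset_insert e I) h ?_
      rw [← h1]
      exact Finset.mem_insert_self e I
    · exact h2 h1

theorem closure_s1 (hk : s + 2 ≤ k) (hkv : k < v) (hA : IsFam (T s) k A)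
    (hM : M.E = Set.univ) (hI : ∀ I : Finset (Fin v), M.Indep (I : Set (Fin v)) ↔ IndG s A c I)
    (hc : IsDesG s A c) {I X : Finset (Fin v)} (h : IndG s A c I) (h3 : I.card = s + 1)
    (hX : X ∈ A) (hIX : I ⊆ X) : M.closure (I : Set (Fin v)) = (X : Set (Fin v)) := by
  ext e
  rw [mem_closure_indG hM hI h, Finset.mem_coe]
  constructor
  · intro h1
    by_contra heX
    exact h1 (fun h2 => heX (hIX h2)) (indG_s2 hk hkv hA hc h h3 hX hIX heX)
  · intro heX heI h1
    have h2 : (insert e I).card = s + 2 := by rw [Finset.card_insert_of_notMem heI, h3]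
    exact h1.2.2 h2 X hX (Finset.insert_subset heX hIX)

theorem closure_s2 (hM : M.E = Set.univ)
    (hI : ∀ I : Finset (Fin v), M.Indep (I : Set (Fin v)) ↔ IndG s A c I)
    {I : Finset (Fin v)} (h : IndG s A c I) (h4 : I.card = s + 2) :
    M.closure (I : Set (Fin v)) = Set.univ := by
  ext e
  rw [mem_closure_indG hM hI h]
  refine ⟨fun _ => Set.mem_univ e, fun _ h1 h2 => ?_⟩
  have h3 := h2.1
  rw [Finset.card_insert_of_notMem h1] at h3
  omega

end MP44257e
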