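import Pool.Agent.H.MP_44257e_co.UG.G5
import Pool.Agent.H.MP_44257e_co.UG.G6

/-!
# The matroid of a design is a PMD with the blocks as hyperplanes

Same proofs as `UB/O1.lean`, `UB/O2.lean` (the case `s = 2`, done). `exists_indG1`: take an
`s`-set `S ⊆ X`, `z ∈ X` off `insert (c S) S` (`s + 2 ≤ k`), `indG_s1`. `exists_indG2`: take an
`s`-set `S`, `w` off `insert (c S) S`, a block `X ⊇ insert w S`, `insert w S` is independent, and a
point outside `X`; `indG_s2`. `pmd_of_desG`: a flat of rank `i` is the closure of an independent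
`i`-set; `(T s ++ [k, v]).getD i 0` is `i` for `i < s`, `s + 1` for `i = s`, `k` for
`i = s + 1`, `v` for `i = s + 2` (write a lemma for it).
-/

set_option autoImplicit false

namespace MP44257e

variable {v s k : ℕ} {A : Finset (Finset (Fin v))} {c : Finset (Fin v) → Fin v}

private theorem G7_ex {S U : Finset (Fin v)} (h : U.card < S.card) : ∃ z ∈ S, z ∉ U :=
  Finset.exists_mem_notMem_of_card_lt_card h

theorem exists_indG1 (hk : s + 2 ≤ k) (hkv : k < v) (hA : IsFam (T s) k A) (hc : IsDesG s A c)
    {X : Finset (Fin v)} (hX : X ∈ A) : ∃ I ⊆ X, I.card = s + 1 ∧ IndG s A c I := by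
  have hXk : X.card = k := hA.1 X hX
  obtain ⟨S, hSX, hS⟩ := Finset.exists_subset_card_eq (show s ≤ X.card by omega)
  have h1 : (insert (c S) S).card ≤ s + 1 := by
    have := Finset.card_insert_le (c S) S
    omega
  obtain ⟨z, hz, hz'⟩ := G7_ex (S := X) (U := insert (c S) S) (by omega)
  rw [Finset.mem_insert, not_or] at hz'
  refine ⟨insert z S, ?_, ?_, indG_s1 hk hkv hA hc hS hz'.2 hz'.1⟩
  · intro a ha
    rcases Finset.mem_insert.1 ha with rfl | ha
    · exact hz
    · exact hSX ha
  · rw [Finset.card_insert_of_notMem hz'.2, hS]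

theorem exists_indG2 (hk : s + 2 ≤ k) (hkv : k < v) (hA : IsFam (T s) k A)
    (hc : IsDesG s A c) : ∃ I : Finset (Fin v), I.card = s + 2 ∧ IndG s A c I := by
  have hu : (Finset.univ : Finset (Fin v)).card = v := by simp
  obtain ⟨S, -, hS⟩ := Finset.exists_subset_card_eq
    (show s ≤ (Finset.univ : Finset (Fin v)).card by omega)
  have h1 : (insert (c S) S).card ≤ s + 1 := by
    have := Finset.card_insert_le (c S) S
    omega
  obtain ⟨w, -, hw⟩ := G7_ex (S := Finset.univ) (U := insert (c S) S) (by omega)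
  rw [Finset.mem_insert, not_or] at hw
  obtain ⟨X, hX, hwX⟩ := hc.2.2 S w hS hw.2 hw.1
  have hXk : X.card = k := hA.1 X hX
  have hI := indG_s1 hk hkv hA hc hS hw.2 hw.1
  have hI1 : (insert w S).card = s + 1 := by rw [Finset.card_insert_of_notMem hw.2, hS]
  obtain ⟨p, -, hp⟩ := G7_ex (S := Finset.univ) (U := X) (by omega)
  refine ⟨insert p (insert w S), ?_, indG_s2 hk hkv hA hc hI hI1 hX hwX hp⟩
  rw [Finset.card_insert_of_notMem (fun h => hp (hwX h)), hI1]

/-- A basis of a set, as a finite set. -/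
private theorem G7_basis {M : Matroid (Fin v)} (hE : M.E = Set.univ)
    (hI : ∀ I : Finset (Fin v), M.Indep (I : Set (Fin v)) ↔ IndG s A c I) (F : Set (Fin v)) :
    ∃ I : Finset (Fin v), IndG s A c I ∧ (I : Set (Fin v)) ⊆ F ∧
      M.closure (I : Set (Fin v)) = M.closure F ∧ M.eRk F = I.card := by
  classical
  obtain ⟨J, hJ⟩ := M.exists_isBasis F (by rw [hE]; exact Set.subset_univ _)
  have hfin : J.Finite := Set.toFinite J
  refine ⟨hfin.toFinset, ?_, ?_, ?_, ?_⟩
  · rw [← hI, Set.Finite.coe_toFinset]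
    exact hJ.indep
  · rw [Set.Finite.coe_toFinset]
    exact hJ.subset
  · rw [Set.Finite.coe_toFinset]
    exact hJ.closure_eq_closure
  · rw [hJ.eRk_eq_encard, ← Set.encard_coe_eq_coe_finsetCard, Set.Finite.coe_toFinset]

/-- The rank of an independent set. -/
private theorem G7_rk {M : Matroid (Fin v)}
    (hI : ∀ I : Finset (Fin v), M.Indep (I : Set (Fin v)) ↔ IndG s A c I) {I : Finset (Fin v)}
    (h : IndG s A c I) : M.eRk (I : Set (Fin v)) = I.card := by
  rw [((hI I).2 h).eRk_eq_encard, Set.encard_coe_eq_coe_finsetCard]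

private theorem G7_len : (T s).length = s + 1 := by
  simp [T]

private theorem G7_get1 {i : ℕ} (h : i < s) : (T s ++ [k, v]).getD i 0 = i := by
  rw [List.getD_append _ _ _ _ (by rw [G7_len]; omega), T,
    List.getD_append _ _ _ _ (by rw [List.length_range]; exact h),
    List.getD_eq_getElem _ _ (by rw [List.length_range]; exact h), List.getElem_range]

private theorem G7_get2 : (T s ++ [k, v]).getD s 0 = s + 1 := by
  rw [List.getD_append _ _ _ _ (by rw [G7_len]; omega), T,
    List.getD_append_right _ _ _ _ (by rw [List.length_range]), List.length_range, Nat.sub_self]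
  rfl

private theorem G7_get3 : (T s ++ [k, v]).getD (s + 1) 0 = k := by
  rw [List.getD_append_right _ _ _ _ (by rw [G7_len]), G7_len, Nat.sub_self]
  rfl

private theorem G7_get4 : (T s ++ [k, v]).getD (s + 2) 0 = v := by
  rw [List.getD_append_right _ _ _ _ (by rw [G7_len]; omega), G7_len,
    show s + 2 - (s + 1) = 1 by omega]
  rfl

theorem pmd_of_desG (hk : s + 2 ≤ k) (hkv : k < v) (hA : IsFam (T s) k A) (hc : IsDesG s A c) :
    ∃ M : Matroid (Fin v), IsPMD (s + 2) (fun i => (T s ++ [k, v]).getD i 0) M ∧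
      IsHyperplanes (s + 2) M A := by
  classical
  obtain ⟨M, hE, hI⟩ := exists_matroid_G hk hkv hA hc
  refine ⟨M, ⟨hE, ?_, ?_⟩, ?_⟩
  · -- the rank
    obtain ⟨I, hI4, hind⟩ := exists_indG2 hk hkv hA hc
    rw [← M.eRk_univ_eq, ← closure_s2 hE hI hind hI4, M.eRk_closure_eq, G7_rk hI hind, hI4]
  · -- the flats
    intro i hi F hF hr
    obtain ⟨I, hind, -, hcl, hrk⟩ := G7_basis hE hI F
    rw [hF.closure] at hcl
    have hcard : I.card = i := by
      rw [hrk] at hr
      exact_mod_cast hr
    rw [← hcl]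
    show (M.closure (I : Set (Fin v))).ncard = (T s ++ [k, v]).getD i 0
    rcases lt_or_ge i s with h1 | h1
    · rw [G7_get1 h1, closure_small hE hI hc (by omega), Set.ncard_coe_finset, hcard]
    · obtain h2 | h2 | h2 : i = s ∨ i = s + 1 ∨ i = s + 2 := by omega
      · rw [h2, G7_get2, closure_s hk hkv hA hE hI hc (hcard.trans h2), Set.ncard_coe_finset,
          Finset.card_insert_of_notMem (hc.1 I (hcard.trans h2)), hcard, h2]
      · obtain ⟨X, hX, hIX⟩ := exists_block_G hc hind (hcard.trans h2)
        rw [h2, G7_get3, closure_s1 hk hkv hA hE hI hc hind (hcard.trans h2) hX hIX,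
          Set.ncard_coe_finset, hA.1 X hX]
      · rw [h2, G7_get4, closure_s2 hE hI hind (hcard.trans h2), Set.ncard_univ,
          Nat.card_eq_fintype_card, Fintype.card_fin]
  · -- the hyperplanes
    intro X
    constructor
    · intro hX
      obtain ⟨I, hIX, h3, hind⟩ := exists_indG1 hk hkv hA hc hX
      have h1 := closure_s1 hk hkv hA hE hI hc hind h3 hX hIX
      constructor
      · rw [← h1]
        exact M.isFlat_closure _
      · rw [← h1, M.eRk_closure_eq, G7_rk hI hind, h3]
        rfl
    · rintro ⟨hF, hr⟩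
      obtain ⟨I, hind, -, hcl, hrk⟩ := G7_basis hE hI (X : Set (Fin v))
      rw [hF.closure] at hcl
      have hcard : I.card = s + 1 := by
        rw [hrk] at hr
        exact_mod_cast hr
      obtain ⟨Y, hY, hIY⟩ := exists_block_G hc hind hcard
      rw [closure_s1 hk hkv hA hE hI hc hind hcard hY hIY] at hcl
      rw [← Finset.coe_injective hcl]
      exact hY

end MP44257e
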