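import Pool.Agent.H.MP_44257e_co.UG.G0

/-!
# The hyperplanes of a PMD with `α = (0, 1, ..., s-1, s+1, k, v)` form a design

As in `UB/Q1.lean` (the case `s = 2`, done). By induction on the cardinality every set `S` with
at most `s` points is independent (`S = insert a S'`; `S'` independent with `i < s` points, its
closure is a flat of rank `i` with `i` points, so it is `S'`, and `a` is not in it). For
`S.card = s` the closure is a flat of rank `s` with `s + 1` points: `c S` is the further point.
Members of `A` are flats. For `w ∉ closure S` the set `insert w S` is independent, its closure is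
a flat of rank `s + 1`, a member of `A`.
-/

set_option autoImplicit false

namespace MP44257e

variable {v s k : ℕ} {A : Finset (Finset (Fin v))}

private theorem G8_getD_lt {s k v i : ℕ} (hi : i < s) : (T s ++ [k, v]).getD i 0 = i := by
  have h1 : i < (T s).length := by
    simp [T]
    omega
  rw [List.getD_append _ _ _ _ h1]
  unfold T
  have h2 : i < (List.range s).length := by
    simpa using hi
  rw [List.getD_append _ _ _ _ h2]
  simp [List.getD, hi]

private theorem G8_getD_self {s k v : ℕ} : (T s ++ [k, v]).getD s 0 = s + 1 := by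
  have h1 : s < (T s).length := by
    simp [T]
  rw [List.getD_append _ _ _ _ h1]
  unfold T
  simp [List.getD]

theorem desG_of_pmd {M : Matroid (Fin v)}
    (hM : IsPMD (s + 2) (fun i => (T s ++ [k, v]).getD i 0) M) (hH : IsHyperplanes (s + 2) M A) :
    ∃ c : Finset (Fin v) → Fin v, IsDesG s A c := by
  obtain ⟨hE, hR, hF⟩ := hM
  have hmem : ∀ x, x ∈ M.E := fun x => by
    rw [hE]
    exact Set.mem_univ x
  have hsub : ∀ X : Set (Fin v), X ⊆ M.E := fun X x _ => hmem x
  have hrk : ∀ n : ℕ, n ≤ s → ∀ S : Finset (Fin v), S.card = n →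
      M.eRk (S : Set (Fin v)) = (n : ℕ∞) := by
    intro n
    induction n with
    | zero =>
      intro _ S hS
      rw [Finset.card_eq_zero.1 hS, Finset.coe_empty, M.eRk_empty]
      rfl
    | succ n ih =>
      intro hn S hS
      obtain ⟨a, S', ha, rfl, hS'⟩ := Finset.card_eq_succ.1 hS
      have h1 := ih (by omega) S' hS'
      have h2 : (M.closure (S' : Set (Fin v))).ncard = (T s ++ [k, v]).getD n 0 :=
        hF n (by omega) _ (M.isFlat_closure _) (by rw [M.eRk_closure_eq, h1])
      rw [G8_getD_lt (by omega)] at h2
      have h3 : (S' : Set (Fin v)) = M.closure (S' : Set (Fin v)) := by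
        apply Set.eq_of_subset_of_ncard_le (M.subset_closure _ (hsub _)) _ (Set.toFinite _)
        rw [h2, Set.ncard_coe_finset, hS']
      have h4 : a ∉ M.closure (S' : Set (Fin v)) := by
        rw [← h3]
        exact_mod_cast ha
      have h5 := M.eRk_insert_eq_add_one (e := a) (X := (S' : Set (Fin v))) ⟨hmem a, h4⟩
      rw [Finset.coe_insert, h5, h1]
      push_cast
      rfl
  have H : ∀ S : Finset (Fin v), ∃ z, S.card = s → z ∉ S ∧
      M.closure (S : Set (Fin v)) = insert z (S : Set (Fin v)) := by
    intro S
    by_cases hS : S.card = s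
    · have h1 := hrk s le_rfl S hS
      have h2 : (M.closure (S : Set (Fin v))).ncard = (T s ++ [k, v]).getD s 0 :=
        hF s (by omega) _ (M.isFlat_closure _) (by rw [M.eRk_closure_eq, h1])
      rw [G8_getD_self] at h2
      have h3 : (S : Set (Fin v)) ⊆ M.closure (S : Set (Fin v)) := M.subset_closure _ (hsub _)
      have h4 : (M.closure (S : Set (Fin v)) \ (S : Set (Fin v))).ncard = 1 := by
        have h5 := Set.ncard_sdiff_add_ncard_of_subset h3 (Set.toFinite _)
        rw [Set.ncard_coe_finset, hS, h2] at h5
        omega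
      obtain ⟨z, hz⟩ := Set.ncard_eq_one.1 h4
      have hz1 : z ∈ M.closure (S : Set (Fin v)) \ (S : Set (Fin v)) := by
        rw [hz]
        exact Set.mem_singleton z
      refine ⟨z, fun _ => ⟨fun h => hz1.2 (by exact_mod_cast h), ?_⟩⟩
      rw [← Set.sdiff_union_of_subset h3, hz]
      rfl
    · by_cases hv : Nonempty (Fin v)
      · exact ⟨hv.some, fun h => absurd h hS⟩
      · exfalso
        have h1 : M.E = ∅ := by
          rw [Set.eq_empty_iff_forall_notMem]
          intro x _
          exact hv ⟨x⟩
        have h2 := M.eRank_le_encard_ground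
        rw [hR, h1, Set.encard_empty] at h2
        have h3 : ((s + 2 : ℕ) : ℕ∞) = 0 := le_antisymm h2 zero_le
        have h4 : s + 2 = 0 := by exact_mod_cast h3
        omega
  choose c hc using H
  refine ⟨c, fun S hS => (hc S hS).1, ?_, ?_⟩
  · intro X hX S hSX hS
    have hX1 := ((hH X).1 hX).1
    have h1 : c S ∈ M.closure (S : Set (Fin v)) := by
      rw [(hc S hS).2]
      exact Set.mem_insert _ _
    have h2 : (S : Set (Fin v)) ⊆ (X : Set (Fin v)) := by exact_mod_cast hSX
    have h3 := M.closure_subset_closure h2 h1
    rw [hX1.closure] at h3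
    exact_mod_cast h3
  · intro S w hS hw hwc
    have hz : w ∉ M.closure (S : Set (Fin v)) := by
      rw [(hc S hS).2, Set.mem_insert_iff, not_or]
      exact ⟨hwc, by exact_mod_cast hw⟩
    have h := M.eRk_insert_eq_add_one (e := w) (X := (S : Set (Fin v))) ⟨hmem w, hz⟩
    rw [hrk s le_rfl S hS] at h
    have hs := M.subset_closure (insert w (S : Set (Fin v))) (hsub _)
    have hcoe : (((Set.toFinite (M.closure (insert w (S : Set (Fin v))))).toFinset :
        Finset (Fin v)) : Set (Fin v)) = M.closure (insert w (S : Set (Fin v))) :=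
      Set.Finite.coe_toFinset _
    refine ⟨(Set.toFinite (M.closure (insert w (S : Set (Fin v))))).toFinset, (hH _).2 ?_, ?_⟩
    · rw [hcoe]
      refine ⟨M.isFlat_closure _, ?_⟩
      rw [M.eRk_closure_eq, h]
      norm_num
    · intro x hx
      rw [Set.Finite.mem_toFinset]
      apply hs
      have hx' : x ∈ ((insert w S : Finset (Fin v)) : Set (Fin v)) := by exact_mod_cast hx
      rwa [Finset.coe_insert] at hx'

end MP44257e
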