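import Pool.Agent.H.MP_44257e_co.UB.Final
import Pool.Agent.H.MP_44257e_co.UG.G7
import Pool.Agent.H.MP_44257e_co.UG.G8
import Pool.Agent.H.MP_44257e_co.UG.G10
import Pool.Agent.H.MP_44257e_co.UG.G11
import Pool.Agent.H.MP_44257e_co.UG.G12

/-!
# The threshold for `T s`, `k = n + s + 1`, is at most `n^3 + n^2 + n + s - 3`
-/

set_option autoImplicit false

namespace MP44257e

open Finset

theorem T_length (s : ℕ) : (T s).length = s + 1 := by simp [T]

/-- `Good` in the form that is used here. -/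
theorem good_T_iff {s k v : ℕ} : Good (T s) k v ↔ ∀ A : Finset (Finset (Fin v)),
    IsFam (T s) k A → (A.card : ℚ) ≤ bound (T s) k v ∧
    ((A.card : ℚ) = bound (T s) k v ↔ ∃ M : Matroid (Fin v),
      IsPMD (s + 2) (fun i => (T s ++ [k, v]).getD i 0) M ∧ IsHyperplanes (s + 2) M A) := by
  unfold Good
  rw [T_length]

/-- The step from `s` to `s + 1`. -/
theorem good_T_step {s k m : ℕ} (hk : s + 3 ≤ k + 1) (hkm : k < m) (h : Good (T s) k m) :
    Good (T (s + 1)) (k + 1) (m + 1) := by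
  rw [good_T_iff] at h ⊢
  intro A hA
  have hsum : (∑ x, ((lk A x).card : ℚ)) = (A.card : ℚ) * ((k : ℚ) + 1) := by
    have := sum_lk (A := A) (k := k) hA.1
    exact_mod_cast this
  have hconst : (∑ _x : Fin (m + 1), bound (T s) k m) = ((m : ℚ) + 1) * bound (T s) k m := by
    simp
  have hk1 : (0 : ℚ) < (k : ℚ) + 1 := by positivity
  have hle : ∀ x, ((lk A x).card : ℚ) ≤ bound (T s) k m := fun x => (h _ (isFam_lk hA x)).1
  have hbd : bound (T (s + 1)) (k + 1) (m + 1) * ((k : ℚ) + 1) =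
      ((m : ℚ) + 1) * bound (T s) k m := by
    rw [bound_T_succ]
    field_simp
  refine ⟨?_, ?_, ?_⟩
  · have h1 : (A.card : ℚ) * ((k : ℚ) + 1) ≤ bound (T (s + 1)) (k + 1) (m + 1) * ((k : ℚ) + 1) := by
      rw [hbd, ← hconst, ← hsum]
      exact sum_le_sum fun x _ => hle x
    exact le_of_mul_le_mul_right h1 hk1
  · intro heq
    have h1 : (∑ x, ((lk A x).card : ℚ)) = ∑ _x : Fin (m + 1), bound (T s) k m := by
      rw [hsum, hconst, ← hbd, heq]
    have h2 := (sum_eq_sum_iff_of_le fun x _ => hle x).1 h1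
    obtain ⟨c, hc⟩ := desG_of_links (A := A) (s := s) fun x => by
      obtain ⟨M, hM, hH⟩ := (h _ (isFam_lk hA x)).2.1 (h2 x (mem_univ x))
      exact desG_of_pmd hM hH
    exact pmd_of_desG hk (by omega) hA hc
  · rintro ⟨M, hM, hH⟩
    obtain ⟨c, hc⟩ := desG_of_pmd hM hH
    have h1 : ∀ x, ((lk A x).card : ℚ) = bound (T s) k m := by
      intro x
      obtain ⟨c', hc'⟩ := links_of_desG (by omega) hc x
      exact (h _ (isFam_lk hA x)).2.2 (pmd_of_desG (by omega) hkm (isFam_lk hA x) hc')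
    have h2 : (A.card : ℚ) * ((k : ℚ) + 1) =
        bound (T (s + 1)) (k + 1) (m + 1) * ((k : ℚ) + 1) := by
      rw [hbd, ← hconst, ← hsum]
      exact sum_congr rfl fun x _ => h1 x
    exact mul_right_cancel₀ hk1.ne' h2

theorem good_T {n : ℕ} (hn : 4 ≤ n) (s : ℕ) :
    ∀ v, n ^ 3 + n ^ 2 + n + s ≤ v → Good (T (s + 2)) (n + (s + 2) + 1) v := by
  induction s with
  | zero =>
    intro v hv
    exact good_013 hn (by omega)
  | succ s ih =>
    intro v hv
    obtain ⟨m, rfl⟩ : ∃ m, v = m + 1 := ⟨v - 1, by omega⟩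
    have h1 := ih m (by omega)
    have h2 : n + (s + 2) + 1 < m := by nlinarith [Nat.mul_le_mul hn hn, sq_nonneg n]
    have h3 := good_T_step (s := s + 2) (k := n + (s + 2) + 1) (by omega) h2 h1
    have e1 : s + 1 + 2 = s + 2 + 1 := by omega
    have e2 : n + (s + 1 + 2) + 1 = n + (s + 2) + 1 + 1 := by omega
    rw [e1, e2]
    exact h3

end MP44257e
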