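import Pool.Agent.H.MP_44257e_co.Defs

/-!
# MP_44257e_co, upper bound, general rank `s + 2`: definitions

`T s = [0, 1, ..., s-1, s+1]`.
-/

set_option autoImplicit false

namespace MP44257e

/-- `T s = [0, 1, ..., s-1, s+1]`. -/
def T (s : ℕ) : List ℕ := List.range s ++ [s + 1]

theorem mem_T {s i : ℕ} : i ∈ T s ↔ i < s ∨ i = s + 1 := by
  simp [T]

/-- `c S` is the further point of the flat spanned by the `s`-set `S`. -/
def IsDesG {v : ℕ} (s : ℕ) (A : Finset (Finset (Fin v))) (c : Finset (Fin v) → Fin v) : Prop :=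
  (∀ S : Finset (Fin v), S.card = s → c S ∉ S) ∧
  (∀ X ∈ A, ∀ S ⊆ X, S.card = s → c S ∈ X) ∧
  ∀ (S : Finset (Fin v)) (w : Fin v), S.card = s → w ∉ S → w ≠ c S → ∃ X ∈ A, insert w S ⊆ X

/-- The independent sets. -/
def IndG {v : ℕ} (s : ℕ) (A : Finset (Finset (Fin v))) (c : Finset (Fin v) → Fin v)
    (I : Finset (Fin v)) : Prop :=
  I.card ≤ s + 2 ∧ (∀ S ⊆ I, S.card = s → c S ∉ I) ∧ (I.card = s + 2 → ∀ X ∈ A, ¬ I ⊆ X)

/-- The set `insert x Y` in `Fin (m + 1)`, where `Y` is moved to the points different from `x`. -/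
def up {m : ℕ} (x : Fin (m + 1)) (Y : Finset (Fin m)) : Finset (Fin (m + 1)) :=
  insert x (Y.map (Fin.succAboveEmb x))

/-- The link of `A` at `x`. -/
def lk {m : ℕ} (A : Finset (Finset (Fin (m + 1)))) (x : Fin (m + 1)) : Finset (Finset (Fin m)) :=
  Finset.univ.filter fun Y => up x Y ∈ A

theorem mem_lk {m : ℕ} {A : Finset (Finset (Fin (m + 1)))} {x : Fin (m + 1)}
    {Y : Finset (Fin m)} : Y ∈ lk A x ↔ up x Y ∈ A := by
  simp [lk]

/-- Two different members of an `A(T s, k, v)` do not share `s + 2` points, and if they share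
`s` points then they share exactly `s + 1`. -/
theorem inter_G {v s k : ℕ} {A : Finset (Finset (Fin v))} (hA : IsFam (T s) k A)
    {X Y S : Finset (Fin v)} (hX : X ∈ A) (hY : Y ∈ A) (h : X ≠ Y) (hS : s ≤ S.card)
    (h1 : S ⊆ X) (h2 : S ⊆ Y) : (X ∩ Y).card = s + 1 := by
  have h3 := mem_T.1 (hA.2 X hX Y hY h)
  have h4 : S.card ≤ (X ∩ Y).card := Finset.card_le_card (Finset.subset_inter h1 h2)
  omega

end MP44257e
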