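import Pool.Agent.H.MP_44257e_co.UG.G0

/-!
# The extra point of an `s`-set

`desG_inv`: put `L = insert (c S) S`, `s + 1` points. There is `w ∉ L` (`s + 2 ≤ k < v`), a block
`X ⊇ insert w S`, so `c S ∈ X`, `L ⊆ X`; there is `w' ∉ X` and a block `X' ⊇ insert w' S`, `L ⊆ X'`.
`X ∩ X'` has `s + 1` points (`inter_G`), so `X ∩ X' = L`. The `s`-set
`S' = insert (c S) (S.erase a)` is in `X` and in `X'`, so `c S' ∈ X ∩ X' = L`, and `c S' ∉ S'`; so
`c S' = a`.
-/

set_option autoImplicit false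

namespace MP44257e

variable {v s k : ℕ} {A : Finset (Finset (Fin v))} {c : Finset (Fin v) → Fin v}

theorem desG_inv (hk : s + 2 ≤ k) (hkv : k < v) (hA : IsFam (T s) k A) (hc : IsDesG s A c)
    {S : Finset (Fin v)} (hS : S.card = s) {a : Fin v} (ha : a ∈ S) :
    c (insert (c S) (S.erase a)) = a := by
  have hcS : c S ∉ S := hc.1 S hS
  have hLc : (insert (c S) S).card = s + 1 := by
    rw [Finset.card_insert_of_notMem hcS, hS]
  have hex : ∀ Y : Finset (Fin v), Y.card < v → ∃ w, w ∉ Y := by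
    intro Y hY
    by_contra hcon
    have h1 : Y = Finset.univ := by
      ext w
      simp only [Finset.mem_univ, iff_true]
      by_contra hw
      exact hcon ⟨w, hw⟩
    rw [h1, Finset.card_univ, Fintype.card_fin] at hY
    omega
  obtain ⟨w, hw⟩ := hex (insert (c S) S) (by omega)
  rw [Finset.mem_insert, not_or] at hw
  obtain ⟨X, hX, hwX⟩ := hc.2.2 S w hS hw.2 hw.1
  have hSX : S ⊆ X := (Finset.subset_insert w S).trans hwX
  have hcX : c S ∈ X := hc.2.1 X hX S hSX hS
  have hLX : insert (c S) S ⊆ X := Finset.insert_subset hcX hSX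
  obtain ⟨w', hw'⟩ := hex X (by rw [hA.1 X hX]; exact hkv)
  obtain ⟨X', hX', hwX'⟩ := hc.2.2 S w' hS (fun h => hw' (hSX h)) (fun h => hw' (h ▸ hcX))
  have hSX' : S ⊆ X' := (Finset.subset_insert w' S).trans hwX'
  have hcX' : c S ∈ X' := hc.2.1 X' hX' S hSX' hS
  have hLX' : insert (c S) S ⊆ X' := Finset.insert_subset hcX' hSX'
  have hne : X ≠ X' := by
    intro h
    exact hw' (h ▸ hwX' (Finset.mem_insert_self w' S))
  have hI := inter_G hA hX hX' hne hS.ge hSX hSX'
  have hL : insert (c S) S = X ∩ X' :=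
    Finset.eq_of_subset_of_card_le (Finset.subset_inter hLX hLX') (by rw [hI, hLc])
  obtain ⟨S', hS'⟩ : ∃ S', S' = insert (c S) (S.erase a) := ⟨_, rfl⟩
  rw [← hS']
  have hs : 1 ≤ s := by
    rw [← hS]
    exact Finset.card_pos.2 ⟨a, ha⟩
  have hS'c : S'.card = s := by
    rw [hS', Finset.card_insert_of_notMem (fun h => hcS (Finset.mem_of_mem_erase h)),
      Finset.card_erase_of_mem ha, hS]
    omega
  have hsub : S' ⊆ insert (c S) S := by
    rw [hS']
    exact Finset.insert_subset_insert _ (Finset.erase_subset _ _)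
  have h1 : c S' ∈ X := hc.2.1 X hX S' (hsub.trans hLX) hS'c
  have h2 : c S' ∈ X' := hc.2.1 X' hX' S' (hsub.trans hLX') hS'c
  have h3 : c S' ∈ insert (c S) S := by
    rw [hL]
    exact Finset.mem_inter.2 ⟨h1, h2⟩
  have h4 : c S' ∉ S' := hc.1 S' hS'c
  by_contra hne2
  apply h4
  rw [Finset.mem_insert] at h3
  rcases h3 with h3 | h3
  · have h5 : c S ∈ S' := by
      rw [hS']
      exact Finset.mem_insert_self _ _
    rw [h3]
    exact h5
  · have h5 : c S' ∈ S.erase a := Finset.mem_erase.2 ⟨hne2, h3⟩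
    have h6 : S.erase a ⊆ S' := by
      rw [hS']
      exact Finset.subset_insert _ _
    exact h6 h5

end MP44257e
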