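import Pool.Agent.H.MP_44257e_co.UG.G1

/-!
# Independent sets: basic facts

`indG_small`: if `S ⊆ I`, `S.card = s`, then `S = I` and `c S ∉ S`.
`block_unique_G`: let `S ⊆ I` be an `s`-set; `c S ∉ I` and `c S` is in both blocks, so the blocks
share the `s + 2` points of `insert (c S) I`; contradiction to `inter_G`.
`exists_block_G`: `I = insert a S`; `c S ∉ I`; third part of `IsDesG`.
-/

set_option autoImplicit false

namespace MP44257e

variable {v s k : ℕ} {A : Finset (Finset (Fin v))} {c : Finset (Fin v) → Fin v}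

theorem indG_subset {I J : Finset (Fin v)} (hJ : IndG s A c J) (h : I ⊆ J) : IndG s A c I := by
  obtain ⟨h1, h2, h3⟩ := hJ
  refine ⟨(Finset.card_le_card h).trans h1, fun S hS hc hcI => ?_, fun hI X hX hIX => ?_⟩
  · exact h2 S (hS.trans h) hc (h hcI)
  · have h4 : I = J := Finset.eq_of_subset_of_card_le h (by omega)
    subst h4
    exact h3 hI X hX hIX

theorem indG_small (hc : IsDesG s A c) {I : Finset (Fin v)} (h : I.card ≤ s) : IndG s A c I := by
  refine ⟨by omega, fun S hS hSc hcI => ?_, fun hI => by omega⟩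
  have h4 : S = I := Finset.eq_of_subset_of_card_le hS (by omega)
  rw [← h4] at hcI
  exact hc.1 S hSc hcI

theorem exists_block_G (hc : IsDesG s A c) {I : Finset (Fin v)} (hI : IndG s A c I)
    (h3 : I.card = s + 1) : ∃ X ∈ A, I ⊆ X := by
  obtain ⟨a, ha⟩ : I.Nonempty := Finset.card_pos.1 (by omega)
  have h4 : (I.erase a).card = s := by rw [Finset.card_erase_of_mem ha]; omega
  have h5 : c (I.erase a) ∉ I := hI.2.1 _ (Finset.erase_subset a I) h4
  have h6 : a ≠ c (I.erase a) := by
    intro h
    rw [← h] at h5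
    exact h5 ha
  obtain ⟨X, hX, h7⟩ := hc.2.2 (I.erase a) a h4 (Finset.notMem_erase a I) h6
  rw [Finset.insert_erase ha] at h7
  exact ⟨X, hX, h7⟩

theorem block_unique_G (hA : IsFam (T s) k A) (hc : IsDesG s A c) {I : Finset (Fin v)}
    (hI : IndG s A c I) (h3 : I.card = s + 1) {X Y : Finset (Fin v)} (hX : X ∈ A) (hY : Y ∈ A)
    (h1 : I ⊆ X) (h2 : I ⊆ Y) : X = Y := by
  by_contra hne
  obtain ⟨a, ha⟩ : I.Nonempty := Finset.card_pos.1 (by omega)
  have h4 : (I.erase a).card = s := by rw [Finset.card_erase_of_mem ha]; omega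
  have h5 : c (I.erase a) ∉ I := hI.2.1 _ (Finset.erase_subset a I) h4
  have h6 : c (I.erase a) ∈ X := hc.2.1 X hX _ ((Finset.erase_subset a I).trans h1) h4
  have h7 : c (I.erase a) ∈ Y := hc.2.1 Y hY _ ((Finset.erase_subset a I).trans h2) h4
  have h8 : insert (c (I.erase a)) I ⊆ X := Finset.insert_subset h6 h1
  have h9 : insert (c (I.erase a)) I ⊆ Y := Finset.insert_subset h7 h2
  have h10 : (insert (c (I.erase a)) I).card = s + 2 := by
    rw [Finset.card_insert_of_notMem h5, h3]
  have h11 := inter_G hA hX hY hne (by omega) h8 h9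
  have h12 := Finset.card_le_card (Finset.subset_inter h8 h9)
  omega

end MP44257e
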