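import Pool.Agent.H.MP_44257e_co.UG.G2

/-!
# Adding a point to an `s`-set or to an independent `(s+1)`-set

`indG_s1`: let `S ⊆ insert e I`, `S.card = s`. If `e ∉ S` then `S = I`: `c I ∉ I`, `c I ≠ e`. Else
`S = insert e (I.erase a)`, and `c S ∈ insert e I`, `c S ∉ S` would give `c S = a`; by `desG_inv` for
`S` and `e ∈ S`: `c (insert (c S) (S.erase e)) = e`, and `insert a (I.erase a) = I`, so `c I = e`.

`indG_s2`: let `S ⊆ insert e I`, `S.card = s`. If `e ∉ S`: `S ⊆ I ⊆ X`, so `c S ∈ X`, `c S ≠ e`, and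
`c S ∉ I` (`I` is independent). If `e ∈ S` and `c S ∈ insert e I`: `c S ∈ I`, and
`S' = insert (c S) (S.erase e) ⊆ I ⊆ X` is an `s`-set with `c S' = e` (`desG_inv`), so `e ∈ X`.
A block containing `insert e I` would be `X` (`block_unique_G`).
-/

set_option autoImplicit false

namespace MP44257e

variable {v s k : ℕ} {A : Finset (Finset (Fin v))} {c : Finset (Fin v) → Fin v}

private theorem G3_sub {I S : Finset (Fin v)} {e : Fin v} (hS : S ⊆ insert e I) (he : e ∉ S) :
    S ⊆ I := by
  intro x hx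
  rcases Finset.mem_insert.1 (hS hx) with h | h
  · exact absurd (h ▸ hx) he
  · exact h

private theorem G3_swap {I S : Finset (Fin v)} {e y : Fin v} (hS : S ⊆ insert e I)
    (hSs : S.card = s) (he : e ∈ S) (hy : y ∉ S) (h : y ∈ insert e I) :
    y ∈ I ∧ insert y (S.erase e) ⊆ I ∧ (insert y (S.erase e)).card = s := by
  have h1 : y ∈ I := by
    rcases Finset.mem_insert.1 h with h1 | h1
    · exact absurd (h1 ▸ he) hy
    · exact h1
  refine ⟨h1, ?_, ?_⟩
  · intro x hx
    rcases Finset.mem_insert.1 hx with h2 | h2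
    · rw [h2]
      exact h1
    · rcases Finset.mem_insert.1 (hS (Finset.mem_of_mem_erase h2)) with h3 | h3
      · exact absurd h3 (Finset.ne_of_mem_erase h2)
      · exact h3
  · have h2 : y ∉ S.erase e := fun h3 => hy (Finset.mem_of_mem_erase h3)
    have h4 : 0 < S.card := Finset.card_pos.2 ⟨e, he⟩
    rw [Finset.card_insert_of_notMem h2, Finset.card_erase_of_mem he]
    omega

theorem indG_s1 (hk : s + 2 ≤ k) (hkv : k < v) (hA : IsFam (T s) k A) (hc : IsDesG s A c)
    {I : Finset (Fin v)} (hI : I.card = s) {e : Fin v} (he : e ∉ I) (hec : e ≠ c I) :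
    IndG s A c (insert e I) := by
  have hcard : (insert e I).card = s + 1 := by rw [Finset.card_insert_of_notMem he, hI]
  refine ⟨by omega, fun S hS hSs h => ?_, fun h => by omega⟩
  by_cases heS : e ∈ S
  · obtain ⟨h1, h2, h3⟩ := G3_swap hS hSs heS (hc.1 S hSs) h
    have h4 : insert (c S) (S.erase e) = I :=
      Finset.eq_of_subset_of_card_le h2 (by rw [h3, hI])
    have h5 := desG_inv hk hkv hA hc hSs heS
    rw [h4] at h5
    exact hec h5.symm
  · have h1 : S ⊆ I := G3_sub hS heS
    have h2 : S = I := Finset.eq_of_subset_of_card_le h1 (by rw [hI, hSs])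
    rw [h2] at h
    rcases Finset.mem_insert.1 h with h3 | h3
    · exact hec h3.symm
    · exact hc.1 I hI h3

theorem indG_s2 (hk : s + 2 ≤ k) (hkv : k < v) (hA : IsFam (T s) k A) (hc : IsDesG s A c)
    {I X : Finset (Fin v)} (hI : IndG s A c I) (h3 : I.card = s + 1) (hX : X ∈ A)
    (hIX : I ⊆ X) {e : Fin v} (he : e ∉ X) : IndG s A c (insert e I) := by
  have heI : e ∉ I := fun h => he (hIX h)
  have hcard : (insert e I).card = s + 2 := by rw [Finset.card_insert_of_notMem heI, h3]
  refine ⟨by omega, fun S hS hSs h => ?_, fun _ Y hY hIY => ?_⟩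
  · by_cases heS : e ∈ S
    · obtain ⟨h1, h2, h4⟩ := G3_swap hS hSs heS (hc.1 S hSs) h
      have h5 := desG_inv hk hkv hA hc hSs heS
      have h6 := hc.2.1 X hX _ (h2.trans hIX) h4
      rw [h5] at h6
      exact he h6
    · have h1 : S ⊆ I := G3_sub hS heS
      rcases Finset.mem_insert.1 h with h2 | h2
      · have h4 := hc.2.1 X hX S (h1.trans hIX) hSs
        rw [h2] at h4
        exact he h4
      · exact hI.2.1 S h1 hSs h2
  · have h1 : I ⊆ Y := (Finset.subset_insert e I).trans hIY
    have h2 := block_unique_G hA hc hI h3 hX hY hIX h1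
    rw [h2] at he
    exact he (hIY (Finset.mem_insert_self e I))

end MP44257e
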