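import Pool.Agent.H.MP_44257e_co.UG.G3

/-!
# The augmentation axiom

`I.card < s`: any `e ∈ J`, `e ∉ I` (`indG_small`). `I.card = s`: there is `e ∈ J`, `e ∉ I`,
`e ≠ c I`: else `J ⊆ insert (c I) I`, so `J = insert (c I) I` by cardinality and `I ⊆ J`,
`c I ∈ J`, against `IndG J`; then `indG_s1`. `I.card = s + 1`: the block `X ⊇ I`
(`exists_block_G`); `J.card = s + 2`, so `J ⊄ X`; `e ∈ J`, `e ∉ X`; `indG_s2`.
`I.card = s + 2` is impossible.
-/

set_option autoImplicit false

namespace MP44257e

variable {v s k : ℕ} {A : Finset (Finset (Fin v))} {c : Finset (Fin v) → Fin v}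

theorem indG_aug (hk : s + 2 ≤ k) (hkv : k < v) (hA : IsFam (T s) k A) (hc : IsDesG s A c)
    {I J : Finset (Fin v)} (hI : IndG s A c I) (hJ : IndG s A c J) (h : I.card < J.card) :
    ∃ e ∈ J, e ∉ I ∧ IndG s A c (insert e I) := by
  have hJ1 := hJ.1
  rcases Nat.lt_trichotomy I.card s with h1 | h1 | h1
  · obtain ⟨e, he, heI⟩ := Finset.exists_mem_notMem_of_card_lt_card h
    refine ⟨e, he, heI, indG_small hc ?_⟩
    rw [Finset.card_insert_of_notMem heI]
    exact h1
  · by_contra hcon
    have h2 : J ⊆ insert (c I) I := by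
      intro e he
      by_contra h3
      rw [Finset.mem_insert, not_or] at h3
      exact hcon ⟨e, he, h3.2, indG_s1 hk hkv hA hc h1 h3.2 h3.1⟩
    have h4 : J = insert (c I) I := by
      refine Finset.eq_of_subset_of_card_le h2 ?_
      rw [Finset.card_insert_of_notMem (hc.1 I h1)]
      exact h
    have h5 : I ⊆ J := by
      rw [h4]
      exact Finset.subset_insert _ _
    refine hJ.2.1 I h5 h1 ?_
    rw [h4]
    exact Finset.mem_insert_self _ _
  · have h3 : I.card = s + 1 := by omega
    have h4 : J.card = s + 2 := by omega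
    obtain ⟨X, hX, hIX⟩ := exists_block_G hc hI h3
    have h5 := hJ.2.2 h4 X hX
    rw [Finset.not_subset] at h5
    obtain ⟨e, he, heX⟩ := h5
    exact ⟨e, he, fun h6 => heX (hIX h6), indG_s2 hk hkv hA hc hI h3 hX hIX heX⟩

end MP44257e
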