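import Pool.Agent.H.MP_44257e_co.UG.G4

/-!
# The matroid and its closures

Compare with `UB/N1.lean` (`exists_matroid`), `UB/N0.lean` (`mem_closure_ind`), `UB/N2.lean`,
`UB/N3.lean` (the case `s = 2`, done): same proofs.
-/

set_option autoImplicit false

namespace MP44257e

variable {v s k : ℕ} {A : Finset (Finset (Fin v))} {c : Finset (Fin v) → Fin v}

theorem exists_matroid_G (hk : s + 2 ≤ k) (hkv : k < v) (hA : IsFam (T s) k A)
    (hc : IsDesG s A c) :
    ∃ M : Matroid (Fin v), M.E = Set.univ ∧ ∀ I : Finset (Fin v), M.Indep (I : Set (Fin v)) ↔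
      IndG s A c I := by
  have h0 : IndG s A c ∅ := by
    refine ⟨by simp, fun S _ _ => Finset.notMem_empty _, fun h => ?_⟩
    rw [Finset.card_empty] at h
    omega
  refine ⟨(IndepMatroid.ofFinset Set.univ (IndG s A c) h0 (fun I J hJ h => indG_subset hJ h)
    (fun I J hI hJ h => indG_aug hk hkv hA hc hI hJ h) (fun I _ => Set.subset_univ _)).matroid,
    rfl, fun I => ?_⟩
  rw [IndepMatroid.matroid_Indep]
  exact IndepMatroid.ofFinset_indep _ _ _ _ _ _

end MP44257e
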