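import Pool.Agent.H.MP_44257e_co.UG.G0

/-!
# The map `up`
-/

set_option autoImplicit false

namespace MP44257e

variable {m : ℕ} {x : Fin (m + 1)} {Y Z : Finset (Fin m)}

theorem mem_up_succAbove {y : Fin m} : x.succAbove y ∈ up x Y ↔ y ∈ Y := by
  unfold up
  rw [Finset.mem_insert, Finset.mem_map]
  constructor
  · rintro (h | ⟨z, hz, h⟩)
    · exact absurd h (Fin.succAbove_ne x y)
    · have h2 : z = y := Fin.succAbove_right_injective (p := x) h
      rw [← h2]
      exact hz
  · intro h
    exact Or.inr ⟨y, h, rfl⟩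

theorem self_mem_up : x ∈ up x Y := by
  unfold up
  exact Finset.mem_insert_self _ _

theorem card_up : (up x Y).card = Y.card + 1 := by
  unfold up
  rw [Finset.card_insert_of_notMem, Finset.card_map]
  intro h
  obtain ⟨z, _, hz⟩ := Finset.mem_map.1 h
  exact Fin.succAbove_ne x z hz

private theorem G9_ext {A B : Finset (Fin (m + 1))} (hx : x ∈ A ↔ x ∈ B)
    (h : ∀ y : Fin m, x.succAbove y ∈ A ↔ x.succAbove y ∈ B) : A = B := by
  ext z
  rcases Fin.eq_self_or_eq_succAbove x z with rfl | ⟨y, rfl⟩
  · exact hx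
  · exact h y

theorem up_inter : up x Y ∩ up x Z = up x (Y ∩ Z) := by
  refine G9_ext (x := x) ?_ ?_
  · simp only [Finset.mem_inter, self_mem_up, and_self]
  · intro y
    simp only [Finset.mem_inter, mem_up_succAbove]

theorem up_subset : up x Y ⊆ up x Z ↔ Y ⊆ Z := by
  constructor
  · intro h y hy
    exact mem_up_succAbove.1 (h (mem_up_succAbove.2 hy))
  · intro h z hz
    rcases Fin.eq_self_or_eq_succAbove x z with rfl | ⟨y, rfl⟩
    · exact self_mem_up
    · exact mem_up_succAbove.2 (h (mem_up_succAbove.1 hz))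

theorem up_inj (h : up x Y = up x Z) : Y = Z :=
  Finset.Subset.antisymm (up_subset.1 (by rw [h])) (up_subset.1 (by rw [h]))

theorem exists_up {X : Finset (Fin (m + 1))} (h : x ∈ X) : ∃ Y, up x Y = X := by
  refine ⟨Finset.univ.filter (fun y => x.succAbove y ∈ X), ?_⟩
  refine G9_ext (x := x) ?_ ?_
  · simp only [self_mem_up, h]
  · intro y
    rw [mem_up_succAbove]
    simp

theorem insert_up {y : Fin m} : insert (x.succAbove y) (up x Y) = up x (insert y Y) := by
  refine G9_ext (x := x) ?_ ?_
  · simp only [Finset.mem_insert, self_mem_up, or_true]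
  · intro z
    rw [Finset.mem_insert, mem_up_succAbove, mem_up_succAbove, Finset.mem_insert]
    constructor
    · rintro (h | h)
      · exact Or.inl (Fin.succAbove_right_injective (p := x) h)
      · exact Or.inr h
    · rintro (h | h)
      · exact Or.inl (by rw [h])
      · exact Or.inr h

end MP44257e
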